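import Mathlib
import Pool.Agent.H13.Arr

set_option autoImplicit false
open Module Pool.Agent.H13.Arr

namespace Pool.Agent.Results.MP_70010f_co.Dim

variable {V : Type} [NormedAddCommGroup V] [InnerProductSpace ℝ V] [FiniteDimensional ℝ V]

noncomputable def refl (a : V) : V ≃ₗᵢ[ℝ] V := (ℝ ∙ a)ᗮ.reflection

def Refl (W : Subgroup (V ≃ₗᵢ[ℝ] V)) : Set (V ≃ₗᵢ[ℝ] V) :=
  {w | w ∈ W ∧ ∃ a : V, a ≠ 0 ∧ w = refl a}

def half (a : V) : Set V := {x | x ∈ Metric.sphere (0 : V) 1 ∧ 0 ≤ inner ℝ a x}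

def Roots (W : Subgroup (V ≃ₗᵢ[ℝ] V)) : Set (Set V) :=
  {A | ∃ a : V, a ≠ 0 ∧ refl a ∈ W ∧ A = half a}

def Y (W : Subgroup (V ≃ₗᵢ[ℝ] V)) : Set (Set V) :=
  {K | K.Nonempty ∧ ∃ S ⊆ Roots W, K = Metric.sphere (0 : V) 1 ∩ ⋂₀ S}

private theorem refl_congr {K L : Submodule ℝ V} (h : K = L) :
    K.reflection = L.reflection := by subst h; rfl

private theorem par {a b : V} (hb : b ≠ 0)
    (h : (ℝ ∙ a)ᗮ.reflection = (ℝ ∙ b)ᗮ.reflection) : ∃ c : ℝ, c ≠ 0 ∧ b = c • a := by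
  have h1 : (ℝ ∙ a)ᗮ = (ℝ ∙ b)ᗮ := by
    ext x
    rw [← Submodule.reflection_eq_self_iff, ← Submodule.reflection_eq_self_iff, h]
  have h2 : (ℝ ∙ a) = (ℝ ∙ b) := by
    rw [← Submodule.orthogonal_orthogonal (ℝ ∙ a), h1, Submodule.orthogonal_orthogonal]
  obtain ⟨c, hc⟩ := Submodule.mem_span_singleton.1 (h2 ▸ Submodule.mem_span_singleton_self b)
  exact ⟨c, by rintro rfl; exact hb (by simpa using hc.symm), hc.symm⟩

private theorem neg_refl (a : V) :
    (ℝ ∙ (-a))ᗮ.reflection = (ℝ ∙ a)ᗮ.reflection :=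
  refl_congr (by rw [← Set.neg_singleton, Submodule.span_neg])

theorem result (V : Type) [NormedAddCommGroup V] [InnerProductSpace ℝ V] [FiniteDimensional ℝ V]
    (d : ℕ) (hd : finrank ℝ V = d + 1) (W : Subgroup (V ≃ₗᵢ[ℝ] V)) [Finite W]
    (hgen : Subgroup.closure (Refl W) = W)
    (hess : ∀ x : V, (∀ w ∈ W, w x = x) → x = 0) :
    Order.krullDim (Y W) = ((d + (Refl W).ncard : ℕ) : ℕ∞) := by
  have fin : Finite (Refl W) := Set.Finite.subset (Set.toFinite (W : Set _)) fun w hw => hw.1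
  choose a0 ha0 hr0 using fun w : Refl W => w.2.2
  obtain ⟨x, hx⟩ := Module.Dual.exists_forall_ne_zero_of_forall_exists
    (fun w : Refl W => (innerₛₗ ℝ (a0 w) : Dual ℝ _)) (fun w => ⟨a0 w, by simpa using ha0 w⟩)
  obtain ⟨a, ha, hr, hp⟩ : ∃ a : Refl W → V, (∀ w, a w ≠ 0) ∧
      (∀ w, w.1 = (ℝ ∙ a w)ᗮ.reflection) ∧ ∀ w, 0 < inner ℝ (a w) x := by
    refine ⟨fun w => if 0 < inner ℝ (a0 w) x then a0 w else -a0 w, fun w => ?_, fun w => ?_,
      fun w => ?_⟩ <;> dsimp only <;> split_ifs with c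
    · exact ha0 w
    · exact neg_ne_zero.2 (ha0 w)
    · exact hr0 w
    · rw [neg_refl]; exact hr0 w
    · exact c
    · rw [inner_neg_left, neg_pos]
      exact (not_lt.1 c).lt_of_ne (by simpa using hx w)
  let g : Refl W → Dual ℝ (V) := fun w => innerₛₗ ℝ (a w)
  have hg : ∀ w v, g w v = inner ℝ (a w) v := fun _ _ => rfl
  have hY : Y W = Y0 g := by
    ext K
    refine and_congr_right fun _ => ⟨?_, ?_⟩
    · rintro ⟨S, hS, rfl⟩
      refine ⟨{i | {x | x ∈ Metric.sphere (0 : V) 1 ∧ 0 ≤ g i x} ∈ S},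
        {i | {x | x ∈ Metric.sphere (0 : V) 1 ∧ g i x ≤ 0} ∈ S}, ?_⟩
      ext v
      refine and_congr_right fun hv => ⟨fun h => ⟨fun i hi => (h _ hi).2, fun i hi => (h _ hi).2⟩,
        fun h A hA => ?_⟩
      obtain ⟨b, hb, hW, rfl⟩ := hS hA
      obtain ⟨c, hc, e⟩ := par hb (hr ⟨_, hW, b, hb, rfl⟩).symm
      set i : Refl W := ⟨_, hW, b, hb, rfl⟩
      rcases lt_or_gt_of_ne hc with c0 | c0
      · have e2 : ∀ z, 0 ≤ inner ℝ b z ↔ g i z ≤ 0 := fun z => by
          rw [e, real_inner_smul_left, hg]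
          exact ⟨fun h => by by_contra k; nlinarith [not_le.1 k], fun h => by nlinarith⟩
        simp only [half, e2] at hA ⊢
        exact ⟨hv, h.2 i hA⟩
      · have e2 : ∀ z, 0 ≤ inner ℝ b z ↔ 0 ≤ g i z := fun z => by
          rw [e, real_inner_smul_left, hg, mul_nonneg_iff_of_pos_left c0]
        simp only [half, e2] at hA ⊢
        exact ⟨hv, h.1 i hA⟩
    · rintro ⟨A, B, rfl⟩
      refine ⟨(fun i => {x | x ∈ Metric.sphere (0 : V) 1 ∧ 0 ≤ inner ℝ (a i) x}) '' A ∪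
        (fun i => {x | x ∈ Metric.sphere (0 : V) 1 ∧ 0 ≤ inner ℝ (-a i) x}) '' B, ?_, ?_⟩
      · rintro _ (⟨i, -, rfl⟩ | ⟨i, -, rfl⟩)
        · exact ⟨a i, ha i, by unfold refl; exact hr i ▸ i.2.1, rfl⟩
        · exact ⟨-a i, neg_ne_zero.2 (ha i), by unfold refl; rw [neg_refl]; exact hr i ▸ i.2.1, rfl⟩
      · ext v
        refine and_congr_right fun hv => ⟨fun h => ?_, fun h => ⟨fun i hi => ?_, fun i hi => ?_⟩⟩
        · rintro _ (⟨i, hi, rfl⟩ | ⟨i, hi, rfl⟩)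
          · exact ⟨hv, h.1 i hi⟩
          · exact ⟨hv, by rw [inner_neg_left, neg_nonneg]; exact h.2 i hi⟩
        · exact (h _ (Or.inl ⟨i, hi, rfl⟩)).2
        · have := (h _ (Or.inr ⟨i, hi, rfl⟩)).2
          rwa [inner_neg_left, neg_nonneg] at this
  rw [hY, ← Nat.card_coe_set_eq]
  refine arr g (fun v hv => hess v fun w hw => ?_) (x := x) hp (fun i j h => ?_) hd
  · rw [← hgen] at hw
    induction hw using Subgroup.closure_induction with
    | mem w hw =>
      rw [show w = _ from hr ⟨w, hw⟩, Submodule.reflection_eq_self_iff,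
        Submodule.mem_orthogonal_singleton_iff_inner_right]
      exact hv _
    | one => rfl
    | mul u w _ _ h1 h2 => rw [LinearIsometryEquiv.coe_mul, Function.comp_apply, h2, h1]
    | inv w _ h1 =>
      rw [LinearIsometryEquiv.coe_inv, LinearIsometryEquiv.symm_apply_eq, h1]
  · refine Subtype.ext ((hr i).trans ((refl_congr ?_).trans (hr j).symm))
    ext z
    rw [Submodule.mem_orthogonal_singleton_iff_inner_right,
      Submodule.mem_orthogonal_singleton_iff_inner_right, ← hg, ← hg]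
    have a1 := inv_ne_zero (hp i).ne'
    have a2 := inv_ne_zero (hp j).ne'
    have := h z
    constructor
    · intro c
      rw [c, mul_zero] at this
      exact (mul_eq_zero.1 this.symm).resolve_left a2
    · intro c
      rw [c, mul_zero] at this
      exact (mul_eq_zero.1 this).resolve_left a1

end Pool.Agent.Results.MP_70010f_co.Dim
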